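import Pool.Agent.H95.StepE

set_option autoImplicit false

theorem Pool.Agent.Results.MP_076221_an.Ext.result (X : Type*) [NormedAddCommGroup X]
    [NormedSpace ℝ X] [CompleteSpace X] [StrictConvexSpace ℝ X]
    [TopologicalSpace.SeparableSpace (StrongDual ℝ X)]
    (S : Set X) (hc : S.Countable) (hd : Dense S) (T : S → S) (hb : Function.Bijective T)
    (h : ∀ x y : S, ⌊‖(x : X) - y‖⌋ = ⌊‖(T x : X) - T y‖⌋) :
    ∃ T' : X → X, Function.Bijective T' ∧ (∀ x y, ⌊‖x - y‖⌋ = ⌊‖T' x - T' y‖⌋) ∧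
      ∀ s : S, T' s = T s :=
  Pool.Agent.H95.StepE.main S hc hd T hb h
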